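import Pool.Agent.Lib.MP_18a3c4_co.Assembly

open Pool.Agent.Lib.MP_18a3c4_co

/-- Every hereditary class of graphs in `WR` has the Erdős–Hajnal property. -/
theorem Pool.Agent.Results.MP_18a3c4_co.WRImpliesEHP.result (F : HereditaryClass) (hF : WR F) :
    EHP F :=
  main F hF
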